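import Pool.Agent.Helper64.IG.Goals

/-!
# LK: linking gives a slice
-/

open scoped BigOperators

universe u v

namespace Pool.Agent.Helper64.IG.PkLK

open Module

section rank

variable {K : Type u} [Field K] {p : ℕ} (l : List (Fin p → K))

theorem rkS_empty : rkS l ∅ = 0 := by
  unfold rkS
  simp

theorem rkS_mono {X Y : Finset (Fin l.length)} (h : X ⊆ Y) : rkS l X ≤ rkS l Y := by
  unfold rkS
  exact Submodule.finrank_mono (Submodule.span_mono (Set.image_mono (by exact_mod_cast h)))

theorem rkS_submod (X Y : Finset (Fin l.length)) :
    rkS l (X ∩ Y) + rkS l (X ∪ Y) ≤ rkS l X + rkS l Y := by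
  unfold rkS
  have h1 : Submodule.span K (l.get '' ((X ∪ Y : Finset (Fin l.length)) : Set (Fin l.length))) =
      Submodule.span K (l.get '' (X : Set (Fin l.length))) ⊔
        Submodule.span K (l.get '' (Y : Set (Fin l.length))) := by
    rw [Finset.coe_union, Set.image_union, Submodule.span_union]
  have h2 : Submodule.span K (l.get '' ((X ∩ Y : Finset (Fin l.length)) : Set (Fin l.length))) ≤
      Submodule.span K (l.get '' (X : Set (Fin l.length))) ⊓
        Submodule.span K (l.get '' (Y : Set (Fin l.length))) := by
    refine le_inf (Submodule.span_mono (Set.image_mono ?_))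
      (Submodule.span_mono (Set.image_mono ?_))
    · rw [Finset.coe_inter]; exact Set.inter_subset_left
    · rw [Finset.coe_inter]; exact Set.inter_subset_right
  have h3 := Submodule.finrank_mono h2
  have h4 := Submodule.finrank_sup_add_finrank_inf_eq
    (Submodule.span K (l.get '' (X : Set (Fin l.length))))
    (Submodule.span K (l.get '' (Y : Set (Fin l.length))))
  rw [h1]
  omega

theorem rkS_single (e : Fin l.length) : rkS l {e} ≤ 1 := by
  unfold rkS
  rw [Finset.coe_singleton, Set.image_singleton]
  exact (finrank_span_le_card _).trans (by simp)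

theorem rkS_insert (X : Finset (Fin l.length)) (e : Fin l.length) :
    rkS l X ≤ rkS l (insert e X) ∧ rkS l (insert e X) ≤ rkS l X + 1 := by
  refine ⟨rkS_mono l (Finset.subset_insert e X), ?_⟩
  have h := rkS_submod l X {e}
  have h1 := rkS_single l e
  have h2 : X ∪ {e} = insert e X := by
    rw [Finset.union_comm]; rfl
  rw [h2] at h
  omega

theorem rkl_map (L : List (Fin l.length)) : rkl (L.map l.get) = rkS l L.toFinset := by
  unfold rkl rkS
  have : {v | v ∈ L.map l.get} = l.get '' ((L.toFinset : Finset (Fin l.length)) : Set _) := by
    ext v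
    simp [List.mem_map]
  rw [this]

theorem rkS_univ : rkS l Finset.univ = rkl l := by
  unfold rkl rkS
  have : l.get '' ((Finset.univ : Finset (Fin l.length)) : Set (Fin l.length)) = {v | v ∈ l} := by
    rw [Finset.coe_univ, Set.image_univ]
    ext v
    simp [List.mem_iff_get]
  rw [this]

end rank

theorem sel_filter {α β : Type*} (f : α → β) (P : α → Bool) (L : List α) :
    sel (L.map f) (L.map P) = (L.filter P).map f := by
  induction L with
  | nil => simp [sel]
  | cons a L ih =>
    by_cases h : P a = true
    · simp [h, sel, ih]
    · have h' : P a = false := by simpa using h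
      simp [h', sel, ih]

theorem map_le {K : Type u} [Field K] (z : List Bool → K) (m i n n' : ℕ) (sl sr : List Bool)
    (h : sl.length + n' + sr.length = n) :
    (Usp z m i n).map (slc n' sl sr) ≤ Usp z m (i + sl.length) n' := by
  unfold Usp
  rw [Submodule.map_span_le]
  rintro f ⟨xs, zs, hx, hz, rfl⟩
  refine Submodule.subset_span ⟨xs ++ sl, sr ++ zs, ?_, ?_, ?_⟩
  · rw [List.length_append, hx]
  · rw [List.length_append]; omega
  · funext bs
    simp only [slc, LinearMap.coe_mk, AddHom.coe_mk]
    by_cases hb : bs.length = n'
    · have hl : (sl ++ bs ++ sr).length = n := by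
        rw [List.length_append, List.length_append, hb]
        exact h
      rw [if_pos hb, if_pos hb, if_pos hl]
      simp only [List.append_assoc]
    · rw [if_neg hb, if_neg hb]

theorem lk (win : G_WIN.{u}) (tlk : G_TLK) (f1i : G_F1I.{u}) : G_LK.{u} := by
  classical
  intro K _ p c l hc hl L1 M1 F M2 L2 hnd hlen hlam hmin
  set G : Finset (Fin l.length) := (M1 ++ F ++ M2).toFinset with hG
  have huniv : rkS l Finset.univ = p := by rw [rkS_univ, hl]
  have hple : ∀ X, p ≤ rkS l X + rkS l Xᶜ := by
    intro X
    have h := rkS_submod l X Xᶜ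
    rw [Finset.union_compl, Finset.inter_compl, rkS_empty, huniv] at h
    omega
  -- the total list
  have htot : (L1 ++ M1 ++ F ++ M2 ++ L2).toFinset = Finset.univ := by
    apply Finset.eq_univ_of_card
    rw [List.toFinset_card_of_nodup hnd, hlen, Fintype.card_fin]
  have hB : Gᶜ = (L1 ++ L2).toFinset := by
    ext i
    rw [Finset.mem_compl, hG]
    simp only [List.mem_toFinset, List.mem_append]
    have hi : i ∈ (L1 ++ M1 ++ F ++ M2 ++ L2).toFinset := by rw [htot]; exact Finset.mem_univ i
    simp only [List.mem_toFinset, List.mem_append] at hi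
    simp only [List.nodup_append, List.mem_append] at hnd
    constructor
    · intro h
      tauto
    · rintro (h | h) h'
      · rcases h' with (h' | h') | h'
        · exact hnd.1.1.1.2.2 i h i h' rfl
        · exact hnd.1.1.2.2 i (Or.inl h) i h' rfl
        · exact hnd.1.2.2 i (Or.inl (Or.inl h)) i h' rfl
      · rcases h' with (h' | h') | h'
        · exact hnd.2.2 i (Or.inl (Or.inl (Or.inr h'))) i h rfl
        · exact hnd.2.2 i (Or.inl (Or.inr h')) i h rfl
        · exact hnd.2.2 i (Or.inr h') i h rfl
  have hFG : F.toFinset ⊆ G := by
    intro i hi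
    rw [hG]
    simp only [List.mem_toFinset, List.mem_append] at hi ⊢
    tauto
  obtain ⟨C, hCF, hCB, hC1, hC2, hC3⟩ := tlk (Fin l.length) (rkS l) (rkS_empty l)
    (fun X e => rkS_insert l X e) (rkS_submod l) p (lamL l F.toFinset) F.toFinset Gᶜ
    (by
      rw [Finset.disjoint_left]
      intro i hi hi'
      exact (Finset.mem_compl.mp hi') (hFG hi)) huniv
    (by
      unfold lamL
      have := hple F.toFinset
      omega)
    (by
      intro Y hY1 hY2
      have hYG : Y ⊆ G := by
        intro i hi
        by_contra hcon
        exact (Finset.disjoint_left.mp hY2 hi) (Finset.mem_compl.mpr hcon)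
      have h := hmin Y hY1 hYG
      rw [hlam]
      have h2 := hple Y
      have h3 : lamL l Y = rkS l Y + rkS l Yᶜ - p := rfl
      omega)
  set k := lamL l F.toFinset with hk
  -- the list of the members of `C`
  set P : Fin l.length → Bool := fun i => decide (i ∈ C) with hP
  set CL : List (Fin l.length) := M1.filter P ++ M2.filter P with hCL
  have hCLset : CL.toFinset = C := by
    ext i
    rw [hCL]
    simp only [List.mem_toFinset, List.mem_append, List.mem_filter, hP, decide_eq_true_eq]
    constructor
    · rintro (h | h)
      · exact h.2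
      · exact h.2
    · intro hi
      have hiG : i ∈ G := by
        by_contra hcon
        exact (Finset.disjoint_left.mp hCB hi) (Finset.mem_compl.mpr hcon)
      have hiF : i ∉ F.toFinset := Finset.disjoint_left.mp hCF hi
      rw [hG] at hiG
      simp only [List.mem_toFinset, List.mem_append] at hiG hiF
      tauto
  have hCLnd : CL.Nodup := by
    have h1 : (M1 ++ M2).Nodup := by
      simp only [List.nodup_append, List.mem_append] at hnd ⊢
      refine ⟨hnd.1.1.1.2.1, hnd.1.2.1, ?_⟩
      intro a ha b hb
      exact hnd.1.2.2 a (Or.inl (Or.inr ha)) b hb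
    refine h1.sublist ?_
    exact (List.filter_sublist).append (List.filter_sublist)
  have hCLlen : CL.length = C.card := by
    rw [← hCLset, List.toFinset_card_of_nodup hCLnd]
  have hsel : sel (M1.map l.get) (M1.map P) ++ sel (M2.map l.get) (M2.map P) = CL.map l.get := by
    rw [sel_filter, sel_filter, hCL, List.map_append]
  have hLI : LinearIndependent K (CL.map l.get).get := by
    rw [linearIndependent_iff_card_eq_finrank_span, Fintype.card_fin]
    have h1 : {v | v ∈ CL.map l.get} = Set.range (CL.map l.get).get := by
      ext v
      rw [Set.mem_range, ← List.mem_iff_get]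
      rfl
    have h2 : Set.finrank K (Set.range (CL.map l.get).get) = rkl (CL.map l.get) := by
      unfold rkl Set.finrank
      rw [h1]
    rw [h2, rkl_map, hCLset, hC1, List.length_map, hCLlen]
  have hr1 : rkl (F.map l.get ++ CL.map l.get ++ (L1.map l.get ++ L2.map l.get)) = p := by
    rw [← List.map_append, ← List.map_append, ← List.map_append, rkl_map, List.toFinset_append,
      List.toFinset_append, hCLset, ← hB]
    exact hC2
  have hr2 : rkl (F.map l.get ++ CL.map l.get) = rkS l (F.toFinset ∪ C) := by
    rw [← List.map_append, rkl_map, List.toFinset_append, hCLset]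
  have hr3 : rkl (CL.map l.get ++ (L1.map l.get ++ L2.map l.get)) = rkS l (C ∪ Gᶜ) := by
    rw [← List.map_append, ← List.map_append, rkl_map, List.toFinset_append, hCLset, ← hB]
  have hW := (win K p c hc).1 (L1.map l.get) (M1.map l.get) (F.map l.get) (M2.map l.get)
    (L2.map l.get) (M1.map P) (M2.map P) (by simp) (by simp)
    (by rw [hsel]; exact hLI) (by rw [hsel]; exact hr1)
  rw [hsel, hr2, hr3] at hW
  simp only [List.length_map, hCLlen] at hW
  have hexp : rkS l (F.toFinset ∪ C) + rkS l (C ∪ Gᶜ) - C.card - p = k := by omega
  rw [hexp] at hW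
  have hmap : L1.map l.get ++ M1.map l.get ++ F.map l.get ++ M2.map l.get ++ L2.map l.get =
      (L1 ++ M1 ++ F ++ M2 ++ L2).map l.get := by
    simp only [List.map_append]
  have e0 : ((L1 ++ M1 ++ F ++ M2 ++ L2).map l.get).length = l.length := by
    rw [List.length_map, hlen]
  have e1 : (L1.map l.get).length = L1.length := List.length_map _
  have e2 : (M1.map l.get).length = M1.length := List.length_map _
  have e3 : (M2.map l.get).length = M2.length := List.length_map _
  have e4 : (F.map l.get).length = F.length := List.length_map _
  rw [hmap, e0, e1, e2, e3, e4] at hW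
  have hF1 := f1i K p c l hc hl (L1 ++ M1) F (M2 ++ L2)
    (by simpa only [List.append_assoc] using hnd)
    (by simpa only [List.append_assoc] using hlen)
  rw [← List.append_assoc, List.length_append] at hF1
  refine ⟨M1.map P, M2.map P, by simp, by simp only [List.length_map, List.length_append], ?_⟩
  have hn : (M1 ++ F ++ M2).length = M1.length + F.length + M2.length := by
    rw [List.length_append, List.length_append]
  rw [hn]
  set z : List Bool → K := fun b => c * plu ((L1 ++ M1 ++ F ++ M2 ++ L2).map l.get) b with hz
  have hle := map_le z l.length L1.length (M1.length + F.length + M2.length) F.length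
    (M1.map P) (M2.map P) (by simp)
  rw [List.length_map] at hle
  have : FiniteDimensional K (Usp z l.length (L1.length + M1.length) F.length) := by
    refine FiniteDimensional.of_finrank_pos ?_
    rw [hF1]
    positivity
  exact Submodule.eq_of_le_of_finrank_eq hle (by rw [hW, hF1])

end Pool.Agent.Helper64.IG.PkLK
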